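import Pool.Agent.H295R3.Hoheisel

set_option autoImplicit false

/-!
# Three primes in a short interval, with a shift
-/

namespace Pool.Agent.Helper99.ML

open Filter Topology Finset

theorem three_primes : ∃ θ x₁ : ℝ, 0 < θ ∧ θ < 1 ∧ 1 ≤ x₁ ∧ ∀ x y : ℝ, x₁ ≤ x →
    x ^ (1 - θ) ≤ y - x → ∀ k : ℤ, |(k : ℝ)| ≤ x / 2 →
    ∃ s : Finset ℤ, 3 ≤ s.card ∧ ∀ P ∈ s, x < P ∧ (P : ℝ) + 1 < y ∧ (P + k).toNat.Prime := by
  obtain ⟨δ, η, hδ0, hδ1, hη, X₀, hX₀, H⟩ := Pool.Agent.H295R3.D.hoheisel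
  have hθ : 0 < 1 - δ / 2 := by linarith
  -- the conditions on `x`
  have e1 : ∀ᶠ x : ℝ in atTop, 6 ≤ x ^ (δ / 2) :=
    (tendsto_rpow_atTop (by positivity : (0 : ℝ) < δ / 2)).eventually_ge_atTop 6
  have e2 : ∀ᶠ x : ℝ in atTop, 8 ≤ x ^ (1 - δ / 2) :=
    (tendsto_rpow_atTop hθ).eventually_ge_atTop 8
  have e3 : ∀ᶠ x : ℝ in atTop, 3 * Real.log (2 * x) ≤ η * (x ^ (1 - δ / 2) / 4) := by
    have h1 : (fun x : ℝ => Real.log x) =o[atTop] fun x : ℝ => x ^ (1 - δ / 2) :=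
      isLittleO_log_rpow_atTop hθ
    have h2 := h1.def (show (0 : ℝ) < η / 24 by positivity)
    filter_upwards [h2, eventually_ge_atTop (2 : ℝ), e2] with x hx hx2 h8
    have hl : 0 ≤ Real.log x := Real.log_nonneg (by linarith)
    rw [Real.norm_of_nonneg hl, Real.norm_of_nonneg (by positivity)] at hx
    have h3 : Real.log (2 * x) ≤ 2 * Real.log x := by
      rw [Real.log_mul (by norm_num) (by positivity)]
      have : Real.log 2 ≤ Real.log x := Real.log_le_log (by norm_num) hx2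
      linarith
    nlinarith
  obtain ⟨x₁, hx₁⟩ := eventually_atTop.1 (((e1.and e2).and e3).and
    (eventually_ge_atTop (2 * (X₀ : ℝ) + 2)))
  refine ⟨δ / 2, max x₁ 1, by positivity, by linarith, le_max_right _ _, ?_⟩
  intro x y hx hxy k hk
  obtain ⟨⟨⟨c1, c2⟩, c3⟩, c4⟩ := hx₁ x ((le_max_left _ _).trans hx)
  have hX0 : (2 : ℝ) ≤ X₀ := by exact_mod_cast hX₀
  have hx0 : 0 < x := by linarith
  have hx1 : 1 ≤ x := by linarith
  obtain ⟨hk1, hk2⟩ := abs_le.1 hk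
  have hf1 := Int.floor_le x
  have hf2 := Int.lt_floor_add_one x
  have hpos : (0 : ℝ) < ((⌊x⌋ + k + 1 : ℤ) : ℝ) := by push_cast; linarith
  have hpos' : 0 < ⌊x⌋ + k + 1 := by exact_mod_cast hpos
  obtain ⟨X, hX⟩ := Int.eq_ofNat_of_zero_le hpos'.le
  have hXr : (X : ℝ) = (⌊x⌋ : ℝ) + k + 1 := by
    have : ((⌊x⌋ + k + 1 : ℤ) : ℝ) = ((X : ℤ) : ℝ) := by rw [hX]
    push_cast at this
    linarith
  have hXlow : x / 2 ≤ X := by rw [hXr]; linarith
  have hXup : (X : ℝ) ≤ 2 * x := by rw [hXr]; linarith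
  have hXpos : (0 : ℝ) < X := by linarith
  set t := x ^ (1 - δ / 2) with ht
  have ht0 : 0 < t := by positivity
  set Y := ⌊t / 2⌋₊ with hY
  have hY1 : (Y : ℝ) ≤ t / 2 := Nat.floor_le (by positivity)
  have hY2 : t / 2 < Y + 1 := Nat.lt_floor_add_one _
  have htx : t ≤ x := by
    rw [ht]
    calc x ^ (1 - δ / 2) ≤ x ^ (1 : ℝ) := Real.rpow_le_rpow_of_exponent_le hx1 (by linarith)
      _ = x := Real.rpow_one x
  have hYX : Y ≤ X := by
    have : (Y : ℝ) ≤ X := by linarith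
    exact_mod_cast this
  have hXX : X₀ ≤ X := by
    have : (X₀ : ℝ) ≤ X := by linarith
    exact_mod_cast this
  have hbig : (X : ℝ) ^ (1 - δ) ≤ Y := by
    have h1 : (X : ℝ) ^ (1 - δ) ≤ (2 * x) ^ (1 - δ) :=
      Real.rpow_le_rpow hXpos.le hXup (by linarith)
    have h2 : (2 * x) ^ (1 - δ) ≤ 2 * x ^ (1 - δ) := by
      rw [Real.mul_rpow (by norm_num) hx0.le]
      have : (2 : ℝ) ^ (1 - δ) ≤ 2 ^ (1 : ℝ) :=
        Real.rpow_le_rpow_of_exponent_le (by norm_num) (by linarith)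
      rw [Real.rpow_one] at this
      exact mul_le_mul_of_nonneg_right this (by positivity)
    have h3 : t = x ^ (1 - δ) * x ^ (δ / 2) := by
      rw [ht, ← Real.rpow_add hx0]
      congr 1
      ring
    have h4 : (1 : ℝ) ≤ x ^ (1 - δ) := Real.one_le_rpow hx1 (by linarith)
    have h5 : 6 * x ^ (1 - δ) ≤ t := by
      rw [h3, mul_comm (x ^ (1 - δ))]
      exact mul_le_mul_of_nonneg_right c1 (by positivity)
    linarith
  have hcount := H X Y hXX hbig hYX
  have hlogX : 0 < Real.log X := Real.log_pos (by linarith)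
  have hlog : Real.log X ≤ Real.log (2 * x) := Real.log_le_log hXpos hXup
  have h3 : (3 : ℝ) ≤ (((Ioc X (X + Y)).filter Nat.Prime).card : ℝ) := by
    refine le_trans ?_ hcount
    rw [le_div_iff₀ hlogX]
    have h4 : t / 4 ≤ Y := by linarith
    have h5 : η * (t / 4) ≤ η * Y := mul_le_mul_of_nonneg_left h4 hη.le
    linarith
  have h3' : 3 ≤ ((Ioc X (X + Y)).filter Nat.Prime).card := by exact_mod_cast h3
  refine ⟨((Ioc X (X + Y)).filter Nat.Prime).image (fun p : ℕ => (p : ℤ) - k), ?_, ?_⟩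
  · rw [card_image_of_injective _ (fun a b hab => by
      simpa using hab)]
    exact h3'
  · intro P hP
    rw [mem_image] at hP
    obtain ⟨p, hp, rfl⟩ := hP
    rw [mem_filter, mem_Ioc] at hp
    obtain ⟨⟨hp1, hp2⟩, hpp⟩ := hp
    have hp1' : (X : ℝ) < p := by exact_mod_cast hp1
    have hp2' : (p : ℝ) ≤ X + Y := by exact_mod_cast hp2
    refine ⟨?_, ?_, ?_⟩
    · push_cast
      rw [hXr] at hp1'
      linarith
    · push_cast
      rw [hXr] at hp2'
      linarith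
    · rw [sub_add_cancel, Int.toNat_natCast]
      exact hpp

end Pool.Agent.Helper99.ML
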