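import Pool.Agent.Helper99.ML.A

set_option autoImplicit false

/-!
# Nested intervals
-/

namespace Pool.Agent.Helper99.ML

open Filter Topology Finset

/-- the `m`-th root divided by `m` -/
noncomputable def rt (m : ℕ) (t : ℝ) : ℝ := t ^ ((1 : ℝ) / m) / m

theorem rt_pow {m : ℕ} (hm : 0 < m) {t : ℝ} (ht : 0 ≤ t) : (rt m t * m) ^ m = t := by
  have hm' : (m : ℝ) ≠ 0 := by positivity
  unfold rt
  rw [div_mul_cancel₀ _ hm', ← Real.rpow_natCast, ← Real.rpow_mul ht, one_div,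
    inv_mul_cancel₀ hm', Real.rpow_one]

theorem rt_nonneg {m : ℕ} {t : ℝ} (ht : 0 ≤ t) : 0 ≤ rt m t := by
  unfold rt; positivity

theorem lt_of_pow {m : ℕ} {a b : ℝ} (hb : 0 ≤ b)
    (h : (b * m) ^ m < (a * m) ^ m) : b < a ∨ a < 0 := by
  have hm' : (0 : ℝ) ≤ m := by positivity
  by_contra hcon
  push Not at hcon
  have : (a * m) ^ m ≤ (b * m) ^ m :=
    pow_le_pow_left₀ (mul_nonneg hcon.2 hm') (mul_le_mul_of_nonneg_right hcon.1 hm') m
  linarith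

/-- the interval of the parameters `α` with `⌊(α m) ^ m⌋ = P`, for which `P + k` is prime -/
def Inv (m : ℕ) (k : ℤ) (a b : ℝ) : Prop :=
  ∃ P : ℤ, 1 ≤ P ∧ (a * m) ^ m = P ∧ (b * m) ^ m = P + 1 ∧ (P + k).toNat.Prime

/-- the conclusion of `three_primes` -/
def TP (θ x₁ : ℝ) : Prop := ∀ x y : ℝ, x₁ ≤ x →
    x ^ (1 - θ) ≤ y - x → ∀ k : ℤ, |(k : ℝ)| ≤ x / 2 →
    ∃ s : Finset ℤ, 3 ≤ s.card ∧ ∀ P ∈ s, x < P ∧ (P : ℝ) + 1 < y ∧ (P + k).toNat.Prime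

theorem child {θ x₁ : ℝ} (hx1 : 1 ≤ x₁) (hA : TP θ x₁) {m : ℕ} (hm : 0 < m) {k : ℤ} {a b : ℝ}
    (ha : 0 < a) (hab : a < b) (hx : x₁ ≤ (a * m) ^ m)
    (hy : ((a * m) ^ m) ^ (1 - θ) ≤ (b * m) ^ m - (a * m) ^ m)
    (hk : |(k : ℝ)| ≤ (a * m) ^ m / 2) (z : ℝ) :
    ∃ a' b', a < a' ∧ a' < b' ∧ b' < b ∧ z ∉ Set.Icc a' b' ∧ Inv m k a' b' := by
  obtain ⟨s, hs3, hs⟩ := hA _ _ hx hy k hk
  by_contra hcon
  push Not at hcon
  have key : ∀ P ∈ s, P = ⌊(z * m) ^ m⌋ ∨ P = ⌊(z * m) ^ m⌋ - 1 := by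
    intro P hP
    obtain ⟨h1, h2, h3⟩ := hs P hP
    have hP1 : (1 : ℝ) < P := by linarith
    have hP0 : (0 : ℝ) ≤ P := by linarith
    have hP1' : (1 : ℤ) ≤ P := by
      have : (1 : ℤ) < P := by exact_mod_cast hP1
      omega
    have r1 := rt_pow hm hP0
    have r2 := rt_pow hm (t := (P : ℝ) + 1) (by linarith)
    have n1 := rt_nonneg (m := m) hP0
    have n2 := rt_nonneg (m := m) (t := (P : ℝ) + 1) (by linarith)
    have a1 : a < rt m P := by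
      rcases lt_of_pow (m := m) (a := rt m P) (b := a) ha.le (by rw [r1]; exact h1) with h | h
      · exact h
      · linarith
    have a2 : rt m P < rt m ((P : ℝ) + 1) := by
      rcases lt_of_pow (m := m) (a := rt m ((P : ℝ) + 1)) (b := rt m P) n1
        (by rw [r1, r2]; linarith) with h | h
      · exact h
      · linarith
    have a3 : rt m ((P : ℝ) + 1) < b := by
      rcases lt_of_pow (m := m) (a := b) (b := rt m ((P : ℝ) + 1)) n2
        (by rw [r2]; exact h2) with h | h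
      · exact h
      · linarith
    have hz : z ∈ Set.Icc (rt m P) (rt m ((P : ℝ) + 1)) := by
      by_contra hz
      exact hcon _ _ a1 a2 a3 hz ⟨P, hP1', r1, r2, h3⟩
    have hm' : (0 : ℝ) ≤ m := by positivity
    have w1 : (P : ℝ) ≤ (z * m) ^ m := by
      calc (P : ℝ) = (rt m P * m) ^ m := r1.symm
        _ ≤ (z * m) ^ m := pow_le_pow_left₀ (mul_nonneg n1 hm')
            (mul_le_mul_of_nonneg_right hz.1 hm') m
    have w2 : (z * m) ^ m ≤ (P : ℝ) + 1 := by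
      calc (z * m) ^ m ≤ (rt m ((P : ℝ) + 1) * m) ^ m :=
            pow_le_pow_left₀ (mul_nonneg (n1.trans hz.1) hm')
            (mul_le_mul_of_nonneg_right hz.2 hm') m
        _ = _ := r2
    have f1 : P ≤ ⌊(z * m) ^ m⌋ := Int.le_floor.2 w1
    have f2 : ⌊(z * m) ^ m⌋ ≤ P + 1 := by
      have := (Int.floor_le ((z * m) ^ m)).trans w2
      exact_mod_cast this
    omega
  have hsub : s ⊆ {⌊(z * m) ^ m⌋, ⌊(z * m) ^ m⌋ - 1} := by
    intro P hP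
    rw [mem_insert, mem_singleton]
    exact key P hP
  have := (card_le_card hsub).trans card_le_two
  omega

theorem wide {θ : ℝ} (hθ1 : θ < 1) {C : ℕ} (hC0 : 1 ≤ C) (hC : 1 ≤ C * θ) {m m' : ℕ} (hm : 0 < m)
    (hmm : C * m ≤ m') {k : ℤ} {a b : ℝ} (ha : 0 < a) (hab : a < b) (hI : Inv m k a b) :
    ((a * m') ^ m') ^ (1 - θ) ≤ (b * m') ^ m' - (a * m') ^ m' := by
  obtain ⟨P, hP1, h1, h2, -⟩ := hI
  have hP : (1 : ℝ) ≤ P := by exact_mod_cast hP1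
  have hP0 : (0 : ℝ) < P := by linarith
  have hm0 : (0 : ℝ) < m := by exact_mod_cast hm
  have hmle : m ≤ m' := by
    calc m = 1 * m := (one_mul m).symm
      _ ≤ C * m := Nat.mul_le_mul_right _ hC0
      _ ≤ m' := hmm
  have hmle' : (m : ℝ) ≤ m' := by exact_mod_cast hmle
  have hm0' : (0 : ℝ) < m' := by linarith
  have hθ0 : 0 < θ := by
    by_contra hcon
    push Not at hcon
    have : (C : ℝ) * θ ≤ 0 := mul_nonpos_of_nonneg_of_nonpos (by positivity) hcon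
    linarith
  have ham : 1 ≤ a * m := by
    by_contra hcon
    push Not at hcon
    have := pow_lt_one₀ (by positivity : 0 ≤ a * m) hcon hm.ne'
    rw [h1] at this
    linarith
  set x := (a * m') ^ m' with hx
  have hx0 : 0 < x := by positivity
  have hba : 1 ≤ b / a := by
    rw [le_div_iff₀ ha]; linarith
  have e1 : (b * m') ^ m' = (b / a) ^ m' * x := by
    rw [hx, ← mul_pow]
    congr 1
    field_simp
  have e2 : (b / a) ^ m = (P + 1) / P := by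
    have : b / a = (b * m) / (a * m) := by field_simp
    rw [this, div_pow, h1, h2]
  have e3 : ((P : ℝ) + 1) / P ≤ (b / a) ^ m' := by
    rw [← e2]
    exact pow_le_pow_right₀ hba hmle
  have e4 : x / P ≤ (b * m') ^ m' - x := by
    rw [e1]
    have h3 : ((P : ℝ) + 1) / P * x ≤ (b / a) ^ m' * x := mul_le_mul_of_nonneg_right e3 hx0.le
    have h4 : ((P : ℝ) + 1) / P * x = x + x / P := by field_simp
    linarith
  have e5 : (P : ℝ) ^ C ≤ x := by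
    calc (P : ℝ) ^ C = (a * m) ^ (m * C) := by rw [pow_mul, h1]
      _ ≤ (a * m) ^ m' := pow_le_pow_right₀ ham (by rw [mul_comm]; exact hmm)
      _ ≤ x := pow_le_pow_left₀ (by positivity) (mul_le_mul_of_nonneg_left hmle' ha.le) m'
  have e6 : (P : ℝ) ≤ x ^ θ := by
    calc (P : ℝ) = (P : ℝ) ^ (1 : ℝ) := (Real.rpow_one _).symm
      _ ≤ (P : ℝ) ^ ((C : ℝ) * θ) := Real.rpow_le_rpow_of_exponent_le hP hC
      _ = ((P : ℝ) ^ C) ^ θ := by rw [Real.rpow_mul hP0.le, Real.rpow_natCast]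
      _ ≤ x ^ θ := Real.rpow_le_rpow (by positivity) e5 hθ0.le
  refine le_trans ?_ e4
  rw [Real.rpow_sub hx0, Real.rpow_one]
  exact div_le_div_of_nonneg_left hx0.le hP0 e6

theorem main {θ x₁ : ℝ} (hθ1 : θ < 1) (hθ0 : 0 < θ) (hx1 : 1 ≤ x₁) (hA : TP θ x₁) {C : ℕ}
    (hC0 : 1 ≤ C) (hC : 1 ≤ C * θ) (n : ℕ → ℕ) (hn : StrictMono n)
    (hlac : ∀ᶠ j in atTop, C * n j ≤ n (j + 1)) (k : ℕ → ℤ)
    (hk : ∀ᶠ j in atTop, |(k j : ℝ)| ≤ 2 ^ n j) (u v : ℝ) (hu : 0 < u) (huv : u < v) :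
    ¬ {α : ℝ | α ∈ Set.Ioo u v ∧
      ∀ᶠ j in atTop, (⌊(α * n j) ^ n j⌋ + k j).toNat.Prime}.Countable := by
  intro hcount
  obtain ⟨z, hz⟩ := Set.countable_iff_exists_subset_range.1 hcount
  have ht : Tendsto n atTop atTop := hn.tendsto_atTop
  -- conditions on the indices
  have c1 : ∀ᶠ m : ℕ in atTop, 4 ≤ u * m := by
    have : Tendsto (fun m : ℕ => u * (m : ℝ)) atTop atTop :=
      tendsto_natCast_atTop_atTop.const_mul_atTop hu
    exact this.eventually_ge_atTop 4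
  have c2 : ∀ᶠ m : ℕ in atTop, x₁ ≤ (4 : ℝ) ^ m :=
    (tendsto_pow_atTop_atTop_of_one_lt (by norm_num : (1 : ℝ) < 4)).eventually_ge_atTop x₁
  have c3 : ∀ᶠ m : ℕ in atTop, 2 ≤ (v / u) ^ m :=
    (tendsto_pow_atTop_atTop_of_one_lt (by rw [lt_div_iff₀ hu]; linarith :
      (1 : ℝ) < v / u)).eventually_ge_atTop 2
  have call := ht.eventually (((c1.and c2).and c3).and (eventually_ge_atTop 1))
  obtain ⟨J, hJ⟩ := eventually_atTop.1 ((call.and hlac).and hk)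
  have base : ∀ j, J ≤ j → ∀ a : ℝ, u ≤ a → x₁ ≤ (a * n j) ^ n j ∧
      |(k j : ℝ)| ≤ (a * n j) ^ n j / 2 ∧ 1 ≤ (a * n j) ^ n j := by
    intro j hj a hau
    obtain ⟨⟨⟨⟨⟨h1, h2⟩, h3⟩, h4⟩, h5⟩, h6⟩ := hJ j hj
    have hn0 : (0 : ℝ) ≤ n j := by positivity
    have h7 : (4 : ℝ) ^ n j ≤ (a * n j) ^ n j :=
      pow_le_pow_left₀ (by norm_num) (h1.trans (mul_le_mul_of_nonneg_right hau hn0)) _
    have h8 : 2 * (2 : ℝ) ^ n j ≤ 4 ^ n j := by
      have e : (4 : ℝ) ^ n j = 2 ^ n j * 2 ^ n j := by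
        rw [← mul_pow]; norm_num
      rw [e]
      have : (2 : ℝ) ^ 1 ≤ 2 ^ n j := pow_le_pow_right₀ (by norm_num) h4
      rw [pow_one] at this
      exact mul_le_mul_of_nonneg_right this (by positivity)
    refine ⟨h2.trans h7, ?_, ?_⟩
    · linarith
    · have : (1 : ℝ) ≤ 4 ^ n j := one_le_pow₀ (by norm_num)
      linarith
  -- the states
  let T : ℕ → Type := fun i => {ab : ℝ × ℝ // u < ab.1 ∧ ab.1 < ab.2 ∧ ab.2 < v ∧
    Inv (n (J + i)) (k (J + i)) ab.1 ab.2}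
  have start : Nonempty (T 0) := by
    obtain ⟨⟨⟨⟨⟨h1, h2⟩, h3⟩, h4⟩, h5⟩, h6⟩ := hJ J le_rfl
    obtain ⟨b1, b2, b3⟩ := base J le_rfl u le_rfl
    have hwid : ((u * n J) ^ n J) ^ (1 - θ) ≤ (v * n J) ^ n J - (u * n J) ^ n J := by
      have e1 : (v * n J) ^ n J = (v / u) ^ n J * (u * n J) ^ n J := by
        rw [← mul_pow]
        congr 1
        field_simp
      have e2 : 2 * (u * n J) ^ n J ≤ (v * n J) ^ n J := by
        rw [e1]
        exact mul_le_mul_of_nonneg_right h3 (by positivity)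
      have e3 : ((u * n J) ^ n J) ^ (1 - θ) ≤ (u * n J) ^ n J := by
        calc ((u * n J) ^ n J) ^ (1 - θ) ≤ ((u * n J) ^ n J) ^ (1 : ℝ) :=
              Real.rpow_le_rpow_of_exponent_le b3 (by linarith)
          _ = _ := Real.rpow_one _
      linarith
    obtain ⟨a', b', g1, g2, g3, -, g4⟩ := child hx1 hA (k := k J) h4 hu huv b1 hwid b2 0
    exact ⟨⟨(a', b'), g1, g2, g3, g4⟩⟩
  have step : ∀ (i : ℕ) (t : T i), ∃ t' : T (i + 1), t.1.1 < t'.1.1 ∧ t'.1.2 < t.1.2 ∧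
      z i ∉ Set.Icc t'.1.1 t'.1.2 := by
    rintro i ⟨⟨a, b⟩, h1, h2, h3, h4⟩
    have hj1 : J ≤ J + (i + 1) := by omega
    obtain ⟨⟨⟨⟨⟨_, _⟩, _⟩, hn1⟩, hl⟩, _⟩ := hJ (J + i) (by omega)
    obtain ⟨⟨⟨⟨⟨_, _⟩, _⟩, hn2⟩, _⟩, _⟩ := hJ (J + (i + 1)) hj1
    have ha : 0 < a := hu.trans h1
    obtain ⟨b1, b2, b3⟩ := base (J + (i + 1)) hj1 a h1.le
    have hw := wide hθ1 hC0 hC hn1 hl ha h2 h4
    obtain ⟨a', b', g1, g2, g3, g5, g4⟩ := child hx1 hA (k := k (J + (i + 1))) hn2 ha h2 b1 hw b2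
      (z i)
    exact ⟨⟨(a', b'), h1.trans g1, g2, g3.trans h3, g4⟩, g1, g3, g5⟩
  choose F hF using step
  let s : ∀ i, T i := fun i => Nat.rec (Classical.choice start) (fun i t => F i t) i
  have hs : ∀ i, (s i).1.1 < (s (i + 1)).1.1 ∧ (s (i + 1)).1.2 < (s i).1.2 ∧
      z i ∉ Set.Icc (s (i + 1)).1.1 (s (i + 1)).1.2 := fun i => hF i (s i)
  have hmono : Monotone fun i => (s i).1.1 := monotone_nat_of_le_succ fun i => (hs i).1.le
  have hanti : Antitone fun i => (s i).1.2 := antitone_nat_of_succ_le fun i => (hs i).2.1.le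
  have hmem := hmono.ciSup_mem_iInter_Icc_of_antitone hanti fun i => (s i).2.2.1.le
  set α := ⨆ i, (s i).1.1 with hα
  rw [Set.mem_iInter] at hmem
  have hαu : u < α := (s 0).2.1.trans_le (hmem 0).1
  have hαv : α < v := (hmem 0).2.trans_lt (s 0).2.2.2.1
  have hprime : ∀ i, (⌊(α * n (J + i)) ^ n (J + i)⌋ + k (J + i)).toNat.Prime := by
    intro i
    obtain ⟨P, hP1, h1, h2, h3⟩ := (s i).2.2.2.2
    have hlt : α < (s i).1.2 := (hmem (i + 1)).2.trans_lt (hs i).2.1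
    have hge : (s i).1.1 ≤ α := (hmem i).1
    have hpos : 0 < (s i).1.1 := hu.trans (s i).2.1
    obtain ⟨⟨⟨⟨⟨_, _⟩, _⟩, hn1⟩, _⟩, _⟩ := hJ (J + i) (by omega)
    have hn0 : (0 : ℝ) < n (J + i) := by exact_mod_cast hn1
    have w1 : (P : ℝ) ≤ (α * n (J + i)) ^ n (J + i) := by
      rw [← h1]
      exact pow_le_pow_left₀ (by positivity) (mul_le_mul_of_nonneg_right hge hn0.le) _
    have w2 : (α * n (J + i)) ^ n (J + i) < (P : ℝ) + 1 := by
      rw [← h2]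
      refine pow_lt_pow_left₀ (mul_lt_mul_of_pos_right hlt hn0) ?_ (by omega)
      have : 0 < α := hu.trans hαu
      positivity
    have hfl : ⌊(α * n (J + i)) ^ n (J + i)⌋ = P := Int.floor_eq_iff.2 ⟨w1, w2⟩
    rw [hfl]
    exact h3
  have hmemT : α ∈ {α : ℝ | α ∈ Set.Ioo u v ∧
      ∀ᶠ j in atTop, (⌊(α * n j) ^ n j⌋ + k j).toNat.Prime} := by
    refine ⟨⟨hαu, hαv⟩, eventually_atTop.2 ⟨J, fun j hj => ?_⟩⟩
    obtain ⟨i, rfl⟩ := Nat.exists_eq_add_of_le hj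
    exact hprime i
  obtain ⟨i, hi⟩ := hz hmemT
  exact (hs i).2.2 (by rw [hi]; exact hmem (i + 1))

end Pool.Agent.Helper99.ML
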