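import Pool.Agent.H295R3.Hoheisel

set_option autoImplicit false

/-!
# Many primes in a short interval, with a shift and separated
-/

namespace Pool.Agent.Helper99.ML

open Filter Topology Finset

/-- many separated primes (shifted by `k`) in `(x, y)` -/
def CHS (θ c x₁ : ℝ) : Prop := ∀ x y : ℝ, x₁ ≤ x →
    x ^ (1 - θ) ≤ y - x → y ≤ 2 * x → ∀ k : ℤ, |(k : ℝ)| ≤ x / 2 →
    ∃ (M : ℕ) (p : ℕ → ℤ), c * (y - x) / Real.log x ≤ M ∧
      (∀ d < M, x < p d ∧ (p d : ℝ) + 1 < y ∧ (p d + k).toNat.Prime) ∧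
      ∀ d d', d < d' → d' < M → p d + 2 * ((d' : ℤ) - d) ≤ p d'

theorem CH : ∃ θ c x₁ : ℝ, 0 < θ ∧ θ < 1 ∧ 0 < c ∧ 2 ≤ x₁ ∧ CHS θ c x₁ := by
  obtain ⟨δ, η, hδ0, hδ1, hη, X₀, hX₀, H⟩ := Pool.Agent.H295R3.D.hoheisel
  have hθ : 0 < 1 - δ / 2 := by linarith
  -- the conditions on `x`
  have e1 : ∀ᶠ x : ℝ in atTop, 8 ≤ x ^ (δ / 2) :=
    (tendsto_rpow_atTop (by positivity : (0 : ℝ) < δ / 2)).eventually_ge_atTop 8
  have e2 : ∀ᶠ x : ℝ in atTop, 12 ≤ x ^ (1 - δ / 2) :=
    (tendsto_rpow_atTop hθ).eventually_ge_atTop 12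
  have e3 : ∀ᶠ x : ℝ in atTop, 2 * (2 * Real.log x) ≤ η * (x ^ (1 - δ / 2) / 4) := by
    have h1 : (fun x : ℝ => Real.log x) =o[atTop] fun x : ℝ => x ^ (1 - δ / 2) :=
      isLittleO_log_rpow_atTop hθ
    have h2 := h1.def (show (0 : ℝ) < η / 16 by positivity)
    filter_upwards [h2, eventually_ge_atTop (2 : ℝ), e2] with x hx hx2 h8
    have hl : 0 ≤ Real.log x := Real.log_nonneg (by linarith)
    rw [Real.norm_of_nonneg hl, Real.norm_of_nonneg (by positivity)] at hx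
    nlinarith
  obtain ⟨x₁, hx₁⟩ := eventually_atTop.1 (((e1.and e2).and e3).and
    (eventually_ge_atTop (2 * (X₀ : ℝ) + 2)))
  refine ⟨δ / 2, η / 32, max x₁ 2, by positivity, by linarith, by positivity, le_max_right _ _, ?_⟩
  intro x y hx hxy hy2 k hk
  obtain ⟨⟨⟨c1, c2⟩, c3⟩, c4⟩ := hx₁ x ((le_max_left _ _).trans hx)
  have hX0 : (2 : ℝ) ≤ X₀ := by exact_mod_cast hX₀
  have hx0 : 0 < x := by linarith
  have hx1 : 1 ≤ x := by linarith
  have hx2 : 2 ≤ x := (le_max_right _ _).trans hx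
  obtain ⟨hk1, hk2⟩ := abs_le.1 hk
  have hf1 := Int.floor_le x
  have hf2 := Int.lt_floor_add_one x
  have hpos : (0 : ℝ) < ((⌊x⌋ + k + 1 : ℤ) : ℝ) := by push_cast; linarith
  have hpos' : 0 < ⌊x⌋ + k + 1 := by exact_mod_cast hpos
  obtain ⟨X, hX⟩ := Int.eq_ofNat_of_zero_le hpos'.le
  have hXr : (X : ℝ) = (⌊x⌋ : ℝ) + k + 1 := by
    have : ((⌊x⌋ + k + 1 : ℤ) : ℝ) = ((X : ℤ) : ℝ) := by rw [hX]
    push_cast at this
    linarith
  have hXlow : x / 2 ≤ X := by rw [hXr]; linarith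
  have hXup : (X : ℝ) ≤ 2 * x := by rw [hXr]; linarith
  have hXpos : (0 : ℝ) < X := by linarith
  set t := x ^ (1 - δ / 2) with ht
  have ht0 : 0 < t := by positivity
  set Y := ⌊(y - x) / 3⌋₊ with hY
  have hY1 : (Y : ℝ) ≤ (y - x) / 3 := Nat.floor_le (by linarith)
  have hY2 : (y - x) / 3 < Y + 1 := Nat.lt_floor_add_one _
  have hY3 : (y - x) / 4 ≤ Y := by linarith
  have hYX : Y ≤ X := by
    have : (Y : ℝ) ≤ X := by linarith
    exact_mod_cast this
  have hXX : X₀ ≤ X := by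
    have : (X₀ : ℝ) ≤ X := by linarith
    exact_mod_cast this
  have hbig : (X : ℝ) ^ (1 - δ) ≤ Y := by
    have h1 : (X : ℝ) ^ (1 - δ) ≤ (2 * x) ^ (1 - δ) :=
      Real.rpow_le_rpow hXpos.le hXup (by linarith)
    have h2 : (2 * x) ^ (1 - δ) ≤ 2 * x ^ (1 - δ) := by
      rw [Real.mul_rpow (by norm_num) hx0.le]
      have : (2 : ℝ) ^ (1 - δ) ≤ 2 ^ (1 : ℝ) :=
        Real.rpow_le_rpow_of_exponent_le (by norm_num) (by linarith)
      rw [Real.rpow_one] at this
      exact mul_le_mul_of_nonneg_right this (by positivity)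
    have h3 : t = x ^ (1 - δ) * x ^ (δ / 2) := by
      rw [ht, ← Real.rpow_add hx0]
      congr 1
      ring
    have h5 : 8 * x ^ (1 - δ) ≤ t := by
      rw [h3, mul_comm (x ^ (1 - δ))]
      exact mul_le_mul_of_nonneg_right c1 (by positivity)
    linarith
  have hcount := H X Y hXX hbig hYX
  set N := ((Ioc X (X + Y)).filter Nat.Prime).card with hN
  have hlogX : 0 < Real.log X := Real.log_pos (by linarith)
  have hlogx : 0 < Real.log x := Real.log_pos (by linarith)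
  have hlog : Real.log X ≤ 2 * Real.log x := by
    have h1 : Real.log X ≤ Real.log (2 * x) := Real.log_le_log hXpos hXup
    rw [Real.log_mul (by norm_num) (by positivity)] at h1
    have : Real.log 2 ≤ Real.log x := Real.log_le_log (by norm_num) hx2
    linarith
  have hNlow : η * ((y - x) / 4) / (2 * Real.log x) ≤ N := by
    refine le_trans ?_ hcount
    rw [div_le_div_iff₀ (by positivity) hlogX]
    have h1 : η * ((y - x) / 4) ≤ η * Y := mul_le_mul_of_nonneg_left hY3 hη.le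
    have h2 : 0 ≤ η * ((y - x) / 4) := mul_nonneg hη.le (by linarith)
    exact mul_le_mul h1 hlog hlogX.le (h2.trans h1)
  have hN2 : (2 : ℝ) ≤ N := by
    refine le_trans ?_ hNlow
    rw [le_div_iff₀ (by positivity)]
    have h4 : η * (t / 4) ≤ η * ((y - x) / 4) := mul_le_mul_of_nonneg_left (by linarith) hη.le
    linarith
  have hN2' : 2 ≤ N := by exact_mod_cast hN2
  set A₀ := Nat.count Nat.Prime (X + 1) with hA₀
  have hAN : A₀ + N ≤ Nat.count Nat.Prime (X + Y + 1) := by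
    rw [hA₀, hN, Nat.count_eq_card_filter_range, Nat.count_eq_card_filter_range,
      ← card_union_of_disjoint]
    · refine card_le_card ?_
      intro q hq
      simp only [mem_union, mem_filter, mem_range, mem_Ioc] at hq ⊢
      rcases hq with h | h
      · exact ⟨by omega, h.2⟩
      · exact ⟨by omega, h.2⟩
    · rw [disjoint_left]
      intro q hq hq'
      simp only [mem_filter, mem_range, mem_Ioc] at hq hq'
      omega
  have hsm : StrictMono (Nat.nth Nat.Prime) := Nat.nth_strictMono Nat.infinite_setOfPred_prime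
  refine ⟨N / 2, fun d => (Nat.nth Nat.Prime (A₀ + 2 * d) : ℤ) - k, ?_, ?_, ?_⟩
  · have h1 : (N : ℝ) / 4 ≤ ((N / 2 : ℕ) : ℝ) := by
      have h2 : N ≤ 4 * (N / 2) := by omega
      have h3 : (N : ℝ) ≤ 4 * ((N / 2 : ℕ) : ℝ) := by exact_mod_cast h2
      linarith
    refine le_trans ?_ h1
    have h2 : η / 32 * (y - x) / Real.log x = η * ((y - x) / 4) / (2 * Real.log x) / 4 := by
      field_simp
      ring
    rw [h2]
    linarith
  · intro d hd
    have hlt : A₀ + 2 * d < Nat.count Nat.Prime (X + Y + 1) := by omega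
    have g1 := Nat.nth_lt_of_lt_count hlt
    have g2 : X + 1 ≤ Nat.nth Nat.Prime (A₀ + 2 * d) :=
      (Nat.count_le_iff_le_nth (p := Nat.Prime) Nat.infinite_setOfPred_prime (a := X + 1)
        (b := A₀ + 2 * d)).1 (Nat.le_add_right _ _)
    have hpp : (Nat.nth Nat.Prime (A₀ + 2 * d)).Prime := Nat.prime_nth_prime _
    set p := Nat.nth Nat.Prime (A₀ + 2 * d) with hp
    have hp1' : (X : ℝ) < p := by exact_mod_cast g2
    have hp2' : (p : ℝ) ≤ X + Y := by exact_mod_cast Nat.lt_succ_iff.1 g1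
    refine ⟨?_, ?_, ?_⟩
    · push_cast
      rw [hXr] at hp1'
      linarith
    · push_cast
      rw [hXr] at hp2'
      linarith
    · rw [sub_add_cancel, Int.toNat_natCast]
      exact hpp
  · intro d d' hdd' hd'
    have h1 := hsm.add_le_nat (2 * (d' - d)) (A₀ + 2 * d)
    have h2 : 2 * (d' - d) + (A₀ + 2 * d) = A₀ + 2 * d' := by omega
    rw [h2] at h1
    have h3 : ((2 * (d' - d) : ℕ) : ℤ) + (Nat.nth Nat.Prime (A₀ + 2 * d) : ℤ) ≤
        (Nat.nth Nat.Prime (A₀ + 2 * d') : ℤ) := by exact_mod_cast h1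
    have h4 : ((2 * (d' - d) : ℕ) : ℤ) = 2 * ((d' : ℤ) - d) := by
      push_cast [Nat.cast_sub hdd'.le]
      ring
    simp only
    linarith

end Pool.Agent.Helper99.ML
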