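import Pool.Agent.Helper99.ML.B
import Pool.Agent.Helper99.ML.C

set_option autoImplicit false

/-!
# One node of the Cantor scheme
-/

namespace Pool.Agent.Helper99.ML

open Filter Topology

theorem slope {m : ℕ} (hm : 0 < m) {α α' b : ℝ} (h1 : 0 < α') (hb : α' ≤ b)
    (ht : (α * m) ^ m ≤ (α' * m) ^ m) (h0 : 0 ≤ α) :
    ((α' * m) ^ m - (α * m) ^ m) * (b / ((b * m) ^ m * m)) ≤ α' - α := by
  have hm0 : (0 : ℝ) < m := by exact_mod_cast hm
  have hb0 : 0 < b := h1.trans_le hb
  have hber := one_add_mul_le_pow (show (-2 : ℝ) ≤ α / α' - 1 by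
    have : 0 ≤ α / α' := by positivity
    linarith) m
  have e1 : (1 + (α / α' - 1)) ^ m = (α * m) ^ m / (α' * m) ^ m := by
    rw [← div_pow]
    congr 1
    field_simp
    ring
  rw [e1] at hber
  set t := (α * m) ^ m with htd
  set t' := (α' * m) ^ m with htd'
  have ht' : 0 < t' := by positivity
  have h2 : (t' - t) * (α' / (t' * m)) ≤ α' - α := by
    have h3 : t / t' = 1 - (t' - t) / t' := by field_simp; ring
    have h4 : (t' - t) / t' ≤ m * (1 - α / α') := by
      rw [h3] at hber; linarith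
    have h5 : (t' - t) * (α' / (t' * m)) = (t' - t) / t' * (α' / m) := by field_simp
    have h6 : α' - α = m * (1 - α / α') * (α' / m) := by field_simp
    rw [h5, h6]
    exact mul_le_mul_of_nonneg_right h4 (by positivity)
  refine le_trans (mul_le_mul_of_nonneg_left ?_ (by linarith)) h2
  rw [div_le_div_iff₀ (by positivity) (by positivity)]
  obtain ⟨n, rfl⟩ : ∃ n, m = n + 1 := ⟨m - 1, by omega⟩
  have h7 : (α' * ((n + 1 : ℕ) : ℝ)) ^ n ≤ (b * ((n + 1 : ℕ) : ℝ)) ^ n :=
    pow_le_pow_left₀ (by positivity) (mul_le_mul_of_nonneg_right hb hm0.le) n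
  rw [htd', pow_succ, pow_succ]
  have h8 : 0 ≤ b * α' * ((n + 1 : ℕ) : ℝ) * ((n + 1 : ℕ) : ℝ) := by positivity
  nlinarith [mul_le_mul_of_nonneg_right h7 h8]

set_option maxHeartbeats 4000000 in
theorem node {θ c x₁ : ℝ} (hθ0 : 0 < θ) (hc : 0 < c) (hx1 : 2 ≤ x₁)
    (hCH : CHS θ c x₁) (hθ1 : θ < 1) (k : ℤ) {s σ : ℝ} (hs : 0 < s) (hsσ : s < σ) (hσ : σ < 1)
    {u : ℝ} (hu : 0 < u) :
    ∀ᶠ m : ℕ in atTop, ∀ m' : ℕ, m' = m * m → ∀ (a b B w : ℝ) (P : ℤ), u < a → a < b →
      (a * m) ^ m = P → (b * m) ^ m = P + 1 → 0 < w → 0 < B → w ≤ B * (P : ℝ) ^ (-σ) →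
      ∃ (M : ℕ) (l r : ℕ → ℝ) (g : ℝ), 2 ≤ M ∧ 0 < g ∧
        (∀ d < M, a < l d ∧ l d < r d ∧ r d < b ∧ ∃ P' : ℤ, 1 ≤ P' ∧ (l d * m') ^ m' = P' ∧
          (r d * m') ^ m' = P' + 1 ∧ (P' + k).toNat.Prime ∧ w / M ≤ B * (P' : ℝ) ^ (-σ)) ∧
        (∀ d d', d < d' → d' < M → ((d' : ℝ) - d) * g ≤ l d' - r d) ∧
        2 * w ≤ (2 * B) * (M * g) ^ s := by
  -- conditions on `X`
  have q1 : ∀ᶠ X : ℝ in atTop, 2 * Real.log X ≤ c * X ^ ((1 : ℝ) / 2) := by
    have h2 := (isLittleO_log_rpow_atTop (show (0 : ℝ) < 1 / 2 by norm_num)).def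
      (show (0 : ℝ) < c / 2 by positivity)
    filter_upwards [h2, eventually_ge_atTop (1 : ℝ)] with X hX hX1
    rw [Real.norm_of_nonneg (Real.log_nonneg hX1), Real.norm_of_nonneg (by positivity)] at hX
    linarith
  have q2 : ∀ᶠ X : ℝ in atTop, Real.log X ≤ c * X ^ ((1 - σ) / 2) := by
    have h2 := (isLittleO_log_rpow_atTop (show (0 : ℝ) < (1 - σ) / 2 by linarith)).def hc
    filter_upwards [h2, eventually_ge_atTop (1 : ℝ)] with X hX hX1
    rwa [Real.norm_of_nonneg (Real.log_nonneg hX1), Real.norm_of_nonneg (by positivity)] at hX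
  have q3 : ∀ᶠ X : ℝ in atTop, 2 * x₁ ≤ X := eventually_ge_atTop _
  have q4 : ∀ᶠ X : ℝ in atTop, 4 * |(k : ℝ)| ≤ X := eventually_ge_atTop _
  obtain ⟨X₀, hX₀⟩ := eventually_atTop.1 ((q1.and q2).and (q3.and q4))
  -- conditions on `m`
  obtain ⟨ε, hε⟩ : ∃ ε, ε = σ / s - 1 := ⟨_, rfl⟩
  have hε0 : 0 < ε := by
    rw [hε, sub_pos, lt_div_iff₀ hs]; linarith
  have hεs : (1 + ε) * s = σ := by
    rw [hε]; field_simp; ring
  have c1 : ∀ᶠ m : ℕ in atTop, 4 ≤ u * m := by
    have : Tendsto (fun m : ℕ => u * (m : ℝ)) atTop atTop :=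
      tendsto_natCast_atTop_atTop.const_mul_atTop hu
    exact this.eventually_ge_atTop 4
  have c2 : ∀ᶠ m : ℕ in atTop, X₀ ≤ (4 : ℝ) ^ m :=
    (tendsto_pow_atTop_atTop_of_one_lt (by norm_num : (1 : ℝ) < 4)).eventually_ge_atTop X₀
  have hcast : Tendsto (fun m : ℕ => (m : ℝ)) atTop atTop := tendsto_natCast_atTop_atTop
  have c3 : ∀ᶠ m : ℕ in atTop, 1 / θ ≤ (m : ℝ) := hcast.eventually_ge_atTop _
  have c4 : ∀ᶠ m : ℕ in atTop, 2 / (1 - σ) ≤ (m : ℝ) := hcast.eventually_ge_atTop _
  have c5 : ∀ᶠ m : ℕ in atTop, 2 * (m : ℝ) ^ 6 ≤ c * ((4 : ℝ) ^ m) ^ ε := by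
    have h4 : 1 < (4 : ℝ) ^ ε := Real.one_lt_rpow (by norm_num) hε0
    have ht := tendsto_pow_const_div_const_pow_of_one_lt 6 h4
    have := ht.eventually (gt_mem_nhds (show (0 : ℝ) < c / 2 by positivity))
    filter_upwards [this] with m hm
    have e : ((4 : ℝ) ^ m) ^ ε = ((4 : ℝ) ^ ε) ^ m := by
      rw [← Real.rpow_natCast, ← Real.rpow_mul (by norm_num), mul_comm, Real.rpow_mul (by norm_num),
        Real.rpow_natCast]
    rw [e]
    rw [div_lt_iff₀ (by positivity)] at hm
    linarith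
  filter_upwards [c1, c2, c3, c4, c5, eventually_ge_atTop 2] with m d1 d2 d3 d4 d5 d6
  intro m' hm' a b B w P hua hab h1 h2 hw hB hwB
  -- the numbers
  have hm2 : (2 : ℝ) ≤ m := by exact_mod_cast d6
  have hm0 : (0 : ℝ) < m := by linarith
  have hmm : (m' : ℝ) = m * m := by rw [hm']; push_cast; ring
  have hm'0 : (0 : ℝ) < m' := by rw [hmm]; positivity
  have hm'pos : 0 < m' := by exact_mod_cast hm'0
  have hmle : (m : ℝ) ≤ m' := by rw [hmm]; nlinarith
  have ha : 0 < a := hu.trans hua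
  have hb : 0 < b := ha.trans hab
  have hP4 : (4 : ℝ) ^ m ≤ P := by
    rw [← h1]
    exact pow_le_pow_left₀ (by norm_num) (d1.trans (mul_le_mul_of_nonneg_right hua.le hm0.le)) _
  have h4m : (4 : ℝ) ≤ 4 ^ m := by
    calc (4 : ℝ) = 4 ^ 1 := (pow_one _).symm
      _ ≤ 4 ^ m := pow_le_pow_right₀ (by norm_num) (by omega)
  have hP0 : (0 : ℝ) < P := by linarith
  have hP1 : (1 : ℝ) ≤ P := by linarith
  set R : ℝ := P + 1 with hR
  have hR0 : 0 < R := by linarith
  have hR1 : 1 ≤ R := by linarith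
  set X := (b * m') ^ m' with hX
  set Xa := (a * m') ^ m' with hXa
  have hX0 : 0 < X := by positivity
  have hXa0 : 0 < Xa := by positivity
  have hRX : R ^ m ≤ X := by
    calc R ^ m = (b * m) ^ m' := by rw [hm', pow_mul, h2]
      _ ≤ X := pow_le_pow_left₀ (by positivity) (mul_le_mul_of_nonneg_left hmle hb.le) _
  have hRX1 : R ≤ X := by
    calc R = R ^ 1 := (pow_one _).symm
      _ ≤ R ^ m := pow_le_pow_right₀ hR1 (by omega)
      _ ≤ X := hRX
  have hX1 : 1 ≤ X := hR1.trans hRX1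
  have hXX : X₀ ≤ X := by linarith
  obtain ⟨⟨r1, r2⟩, r3, r4⟩ := hX₀ X hXX
  have hRκ : ∀ κ : ℝ, 0 < κ → 1 / κ ≤ m → R ≤ X ^ κ := by
    intro κ hκ hκm
    have h3 : 1 ≤ κ * m := by
      rw [div_le_iff₀ hκ] at hκm; linarith
    calc R = R ^ (1 : ℝ) := (Real.rpow_one _).symm
      _ ≤ R ^ (m * κ) := Real.rpow_le_rpow_of_exponent_le hR1 (by linarith)
      _ = (R ^ m) ^ κ := by rw [Real.rpow_mul hR0.le, Real.rpow_natCast]
      _ ≤ X ^ κ := Real.rpow_le_rpow (by positivity) hRX hκ.le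
  have hlogX : 0 < Real.log X := Real.log_pos (by linarith)
  -- the length
  have hXaX : Xa = (P / R) ^ m * X := by
    have e : (P : ℝ) / R = (a / b) ^ m := by
      rw [← h1, ← h2, ← div_pow]
      congr 1
      field_simp
    rw [e, ← pow_mul, ← hm', hXa, hX, ← mul_pow]
    congr 1
    field_simp
  have hPR : (P : ℝ) / R ≤ 1 := by
    rw [div_le_one hR0]; linarith
  have hXaX' : Xa ≤ X - X / R := by
    have h3 : (P / R : ℝ) ^ m ≤ P / R := by
      calc (P / R : ℝ) ^ m ≤ (P / R) ^ 1 :=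
            pow_le_pow_of_le_one (by positivity) hPR (by omega)
        _ = _ := pow_one _
    have h4 : (P / R : ℝ) * X = X - X / R := by
      rw [hR]; field_simp; ring
    rw [hXaX, ← h4]
    exact mul_le_mul_of_nonneg_right h3 hX0.le
  obtain ⟨x, hx⟩ : ∃ x, x = max Xa (X / 2) := ⟨_, rfl⟩
  have hx2 : X / 2 ≤ x := by rw [hx]; exact le_max_right _ _
  have hxa : Xa ≤ x := by rw [hx]; exact le_max_left _ _
  have hXR : X / R ≤ X / 2 := div_le_div_of_nonneg_left hX0.le (by norm_num) (by linarith)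
  have hXR0 : 0 < X / R := by positivity
  have hxX : x ≤ X - X / R := by
    rw [hx]
    exact max_le hXaX' (by linarith)
  have hxX' : x ≤ X := by linarith
  have hx₁ : x₁ ≤ x := by linarith
  have hx0 : 0 < x := by linarith
  have hlen : x ^ (1 - θ) ≤ X - x := by
    calc x ^ (1 - θ) ≤ X ^ (1 - θ) := Real.rpow_le_rpow hx0.le hxX' (by linarith)
      _ = X / X ^ θ := by rw [Real.rpow_sub hX0, Real.rpow_one]
      _ ≤ X / R := div_le_div_of_nonneg_left hX0.le hR0 (hRκ θ hθ0 d3)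
      _ ≤ X - x := by linarith
  have hlogx : 0 < Real.log x := Real.log_pos (by linarith)
  obtain ⟨M, p, g1, g2, g3⟩ := hCH x X hx₁ hlen (by linarith) k (by linarith)
  have hM : c * X / (R * Real.log X) ≤ M := by
    refine le_trans ?_ g1
    have h3 : c * X / (R * Real.log X) = c * (X / R) / Real.log X := by field_simp
    rw [h3]
    have h5 : c * (X / R) ≤ c * (X - x) := mul_le_mul_of_nonneg_left (by linarith) hc.le
    have h6 : Real.log x ≤ Real.log X := Real.log_le_log hx0 hxX'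
    exact div_le_div₀ (by nlinarith) h5 hlogx h6
  have hM2 : (2 : ℝ) ≤ M := by
    refine le_trans ?_ hM
    rw [le_div_iff₀ (by positivity)]
    have h3 : R ≤ X ^ ((1 : ℝ) / 2) := hRκ _ (by norm_num) (by linarith)
    calc 2 * (R * Real.log X) = R * (2 * Real.log X) := by ring
      _ ≤ X ^ ((1 : ℝ) / 2) * (c * X ^ ((1 : ℝ) / 2)) :=
          mul_le_mul h3 r1 (by positivity) (by positivity)
      _ = c * (X ^ ((1 : ℝ) / 2) * X ^ ((1 : ℝ) / 2)) := by ring
      _ = c * X := by
          rw [← Real.rpow_add hX0]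
          norm_num
  have hM2' : 2 ≤ M := by exact_mod_cast hM2
  have hM0 : (0 : ℝ) < M := by linarith
  have hpp : ∀ d < M, (1 : ℝ) < p d := fun d hd => by
    have := (g2 d hd).1
    linarith
  refine ⟨M, fun d => rt m' (p d), fun d => rt m' (p d + 1), b / (X * m'), hM2', by positivity,
    ?_, ?_, ?_⟩
  · intro d hd
    obtain ⟨i1, i2, i3⟩ := g2 d hd
    have hp1 := hpp d hd
    have hp0 : (0 : ℝ) ≤ p d := by linarith
    have w1 := rt_pow hm'pos hp0
    have w2 := rt_pow hm'pos (t := (p d : ℝ) + 1) (by linarith)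
    have n1 := rt_nonneg (m := m') hp0
    have n2 := rt_nonneg (m := m') (t := (p d : ℝ) + 1) (by linarith)
    refine ⟨?_, ?_, ?_, p d, ?_, w1, w2, i3, ?_⟩
    · rcases lt_of_pow (m := m') (a := rt m' (p d)) (b := a) ha.le
        (by rw [w1]; exact hxa.trans_lt i1) with h | h
      · exact h
      · linarith
    · rcases lt_of_pow (m := m') (a := rt m' ((p d : ℝ) + 1)) (b := rt m' (p d)) n1
        (by rw [w1, w2]; linarith) with h | h
      · exact h
      · linarith
    · rcases lt_of_pow (m := m') (a := b) (b := rt m' ((p d : ℝ) + 1)) n2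
        (by rw [w2]; exact i2) with h | h
      · exact h
      · linarith
    · have : (1 : ℤ) < p d := by exact_mod_cast hp1
      omega
    · -- the weight
      have hpX : (p d : ℝ) ≤ X := by linarith
      have h3 : X ^ (-σ) ≤ (p d : ℝ) ^ (-σ) :=
        Real.rpow_le_rpow_of_nonpos (by linarith) hpX (by linarith)
      refine le_trans ?_ (mul_le_mul_of_nonneg_left h3 hB.le)
      rw [div_le_iff₀ hM0]
      have h4 : w ≤ B := by
        refine hwB.trans ?_
        have : (P : ℝ) ^ (-σ) ≤ 1 := Real.rpow_le_one_of_one_le_of_nonpos hP1 (by linarith)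
        calc B * (P : ℝ) ^ (-σ) ≤ B * 1 := mul_le_mul_of_nonneg_left this hB.le
          _ = B := mul_one _
      refine h4.trans ?_
      have h5 : 1 ≤ X ^ (-σ) * M := by
        have h6 : 1 ≤ X ^ (-σ) * (c * X / (R * Real.log X)) := by
          have h7 : X ^ (-σ) * (c * X / (R * Real.log X)) =
              c * (X ^ (-σ) * X) / (R * Real.log X) := by ring
          rw [h7, le_div_iff₀ (by positivity), one_mul]
          have h8 : R ≤ X ^ ((1 - σ) / 2) := hRκ _ (by linarith) (by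
            rw [one_div_div]; exact d4)
          calc R * Real.log X ≤ X ^ ((1 - σ) / 2) * (c * X ^ ((1 - σ) / 2)) :=
                mul_le_mul h8 r2 (by positivity) (by positivity)
            _ = c * (X ^ ((1 - σ) / 2) * X ^ ((1 - σ) / 2)) := by ring
            _ = c * (X ^ (-σ) * X) := by
                have e1 : X ^ (-σ) * X = X ^ (-σ) * X ^ (1 : ℝ) := by rw [Real.rpow_one]
                rw [e1, ← Real.rpow_add hX0, ← Real.rpow_add hX0]
                congr 2
                ring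
        exact h6.trans (mul_le_mul_of_nonneg_left hM (by positivity))
      calc B = B * 1 := (mul_one _).symm
        _ ≤ B * (X ^ (-σ) * M) := mul_le_mul_of_nonneg_left h5 hB.le
        _ = B * X ^ (-σ) * M := by ring
  · intro d d' hdd' hd'
    have hd : d < M := hdd'.trans hd'
    have hp1 := hpp d hd
    have hp1' := hpp d' hd'
    have hp0 : (0 : ℝ) ≤ p d := by linarith
    have w1 := rt_pow hm'pos (t := (p d' : ℝ)) (by linarith)
    have w2 := rt_pow hm'pos (t := (p d : ℝ) + 1) (by linarith)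
    have n1 := rt_nonneg (m := m') (t := (p d' : ℝ)) (by linarith)
    have n2 := rt_nonneg (m := m') (t := (p d : ℝ) + 1) (by linarith)
    have h3 : p d + 2 * ((d' : ℤ) - d) ≤ p d' := g3 d d' hdd' hd'
    have h3' : (p d : ℝ) + 2 * ((d' : ℝ) - d) ≤ p d' := by exact_mod_cast h3
    have h4 : (1 : ℝ) ≤ (d' : ℝ) - d := by
      have : (d : ℝ) + 1 ≤ d' := by exact_mod_cast hdd'
      linarith
    have n1' : 0 < rt m' (p d') := by
      rcases lt_of_pow (m := m') (a := rt m' (p d')) (b := a) ha.le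
        (by rw [w1]; exact hxa.trans_lt (g2 d' hd').1) with h | h
      · linarith
      · linarith
    have hb' : rt m' (p d') ≤ b := by
      rcases lt_of_pow (m := m') (a := b) (b := rt m' (p d')) n1
        (by rw [w1]; linarith [(g2 d' hd').2.1]) with h | h
      · exact h.le
      · linarith
    have hsl := slope hm'pos (α := rt m' ((p d : ℝ) + 1)) n1' hb' (by rw [w1, w2]; linarith) n2
    rw [w1, w2] at hsl
    refine le_trans (mul_le_mul_of_nonneg_right ?_ (by positivity)) hsl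
    linarith
  · -- the key inequality
    have h3 : (P : ℝ) ^ (-(1 + ε)) ≤ M * (b / (X * m')) := by
      have hlog : Real.log X ≤ m' * (b * m') := by
        rw [hX, Real.log_pow]
        refine mul_le_mul_of_nonneg_left ?_ hm'0.le
        have := Real.log_le_sub_one_of_pos (show 0 < b * (m' : ℝ) by positivity)
        linarith
      have h5 : c / (R * (m' : ℝ) ^ 3) ≤ M * (b / (X * m')) := by
        calc c / (R * (m' : ℝ) ^ 3) = c * X / (R * (m' * (b * m'))) * (b / (X * m')) := by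
              field_simp
          _ ≤ c * X / (R * Real.log X) * (b / (X * m')) := by
              refine mul_le_mul_of_nonneg_right ?_ (by positivity)
              exact div_le_div_of_nonneg_left (by positivity) (by positivity)
                (mul_le_mul_of_nonneg_left hlog hR0.le)
          _ ≤ _ := mul_le_mul_of_nonneg_right hM (by positivity)
      refine le_trans ?_ h5
      rw [le_div_iff₀ (by positivity), Real.rpow_neg hP0.le, inv_mul_le_iff₀ (by positivity),
        Real.rpow_add hP0, Real.rpow_one]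
      have h6 : 2 * (m : ℝ) ^ 6 ≤ c * (P : ℝ) ^ ε :=
        d5.trans (mul_le_mul_of_nonneg_left
          (Real.rpow_le_rpow (by positivity) hP4 hε0.le) hc.le)
      have h7 : (m' : ℝ) ^ 3 = (m : ℝ) ^ 6 := by rw [hmm]; ring
      rw [h7]
      calc R * (m : ℝ) ^ 6 ≤ (2 * P) * (m : ℝ) ^ 6 :=
            mul_le_mul_of_nonneg_right (by linarith) (by positivity)
        _ = P * (2 * (m : ℝ) ^ 6) := by ring
        _ ≤ P * (c * (P : ℝ) ^ ε) := mul_le_mul_of_nonneg_left h6 hP0.le
        _ = _ := by ring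
    have h4 : (P : ℝ) ^ (-σ) ≤ (M * (b / (X * m'))) ^ s := by
      calc (P : ℝ) ^ (-σ) = ((P : ℝ) ^ (-(1 + ε))) ^ s := by
            rw [← Real.rpow_mul hP0.le, ← hεs]
            congr 1
            ring
        _ ≤ _ := Real.rpow_le_rpow (by positivity) h3 hs.le
    calc 2 * w ≤ 2 * (B * (P : ℝ) ^ (-σ)) := by linarith
      _ = 2 * B * (P : ℝ) ^ (-σ) := by ring
      _ ≤ _ := mul_le_mul_of_nonneg_left h4 (by positivity)

end Pool.Agent.Helper99.ML
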