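import Pool.Agent.Helper99.ML.D
import Pool.Agent.Helper43.ML.Dim

set_option autoImplicit false

/-!
# Dimension one
-/

namespace Pool.Agent.Helper99.ML

open Filter Topology

/-- `n j = 2 ^ (2 ^ j)` -/
def nn (j : ℕ) : ℕ := 2 ^ 2 ^ j

theorem nn_succ (j : ℕ) : nn (j + 1) = nn j * nn j := by
  unfold nn
  rw [← pow_add]
  congr 1
  rw [pow_succ]
  ring

theorem nn_mono : StrictMono nn := by
  intro a b hab
  exact Nat.pow_lt_pow_right (by norm_num) (Nat.pow_lt_pow_right (by norm_num) hab)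

/-- the parameters -/
def PS (k : ℤ) (u v : ℝ) : Set ℝ := {α : ℝ | α ∈ Set.Ioo u v ∧
  ∀ᶠ j in atTop, (⌊(α * nn j) ^ nn j⌋ + k).toNat.Prime}

theorem dim_ge (k : ℤ) {u v : ℝ} (hu : 0 < u) (huv : u < v) {s : ℝ} (hs : 0 < s) (hs1 : s < 1) :
    ENNReal.ofReal s ≤ dimH (PS k u v) := by
  obtain ⟨θ, c, x₁, hθ0, hθ1, hc, hx1, hCH⟩ := CH
  obtain ⟨θ', x₁', hθ0', hθ1', hx1', hTP⟩ := three_primes
  obtain ⟨σ, hσd⟩ : ∃ σ, σ = (s + 1) / 2 := ⟨_, rfl⟩
  have hsσ : s < σ := by rw [hσd]; linarith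
  have hσ : σ < 1 := by rw [hσd]; linarith
  have hnode := node hθ0 hc hx1 hCH hθ1 k hs hsσ hσ hu
  have ht : Tendsto nn atTop atTop := nn_mono.tendsto_atTop
  have c1 : ∀ᶠ m : ℕ in atTop, 4 ≤ u * m := by
    have : Tendsto (fun m : ℕ => u * (m : ℝ)) atTop atTop :=
      tendsto_natCast_atTop_atTop.const_mul_atTop hu
    exact this.eventually_ge_atTop 4
  have c2 : ∀ᶠ m : ℕ in atTop, x₁' ≤ (4 : ℝ) ^ m :=
    (tendsto_pow_atTop_atTop_of_one_lt (by norm_num : (1 : ℝ) < 4)).eventually_ge_atTop _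
  have c3 : ∀ᶠ m : ℕ in atTop, 2 ≤ (v / u) ^ m :=
    (tendsto_pow_atTop_atTop_of_one_lt (by rw [lt_div_iff₀ hu]; linarith :
      (1 : ℝ) < v / u)).eventually_ge_atTop 2
  have c4 : ∀ᶠ m : ℕ in atTop, 2 * |(k : ℝ)| ≤ (4 : ℝ) ^ m :=
    (tendsto_pow_atTop_atTop_of_one_lt (by norm_num : (1 : ℝ) < 4)).eventually_ge_atTop _
  obtain ⟨J, hJ⟩ := eventually_atTop.1 (ht.eventually
    ((((c1.and c2).and (c3.and c4)).and (eventually_ge_atTop 1)).and hnode))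
  have hn1 : ∀ j, J ≤ j → 1 ≤ nn j := fun j hj => (hJ j hj).1.2
  -- the first interval
  obtain ⟨a₀, b₀, g1, g2, g3, -, P₀, hP₀, p1, p2, p3⟩ :
      ∃ a' b', u < a' ∧ a' < b' ∧ b' < v ∧ True ∧ Inv (nn J) k a' b' := by
    obtain ⟨⟨⟨⟨h1, h2⟩, h3, h4⟩, h5⟩, h6⟩ := hJ J le_rfl
    have h7 : (4 : ℝ) ^ nn J ≤ (u * nn J) ^ nn J := pow_le_pow_left₀ (by norm_num) h1 _
    have b3 : (1 : ℝ) ≤ (u * nn J) ^ nn J := by
      have : (1 : ℝ) ≤ 4 ^ nn J := one_le_pow₀ (by norm_num)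
      linarith
    have hwid : ((u * nn J) ^ nn J) ^ (1 - θ') ≤ (v * nn J) ^ nn J - (u * nn J) ^ nn J := by
      have e1 : (v * nn J) ^ nn J = (v / u) ^ nn J * (u * nn J) ^ nn J := by
        rw [← mul_pow]
        congr 1
        field_simp
      have e2 : 2 * (u * nn J) ^ nn J ≤ (v * nn J) ^ nn J := by
        rw [e1]
        exact mul_le_mul_of_nonneg_right h3 (by positivity)
      have e3 : ((u * nn J) ^ nn J) ^ (1 - θ') ≤ (u * nn J) ^ nn J := by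
        calc ((u * nn J) ^ nn J) ^ (1 - θ') ≤ ((u * nn J) ^ nn J) ^ (1 : ℝ) :=
              Real.rpow_le_rpow_of_exponent_le b3 (by linarith)
          _ = _ := Real.rpow_one _
      linarith
    obtain ⟨a', b', g1, g2, g3, -, g4⟩ := child hx1' hTP (k := k) h5 hu huv (h2.trans h7) hwid
      (by linarith) 0
    exact ⟨a', b', g1, g2, g3, trivial, g4⟩
  have hP₀' : (1 : ℝ) ≤ P₀ := by exact_mod_cast hP₀
  have hP₀0 : (0 : ℝ) < P₀ := by linarith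
  obtain ⟨B, hBd⟩ : ∃ B : ℝ, B = (P₀ : ℝ) ^ σ := ⟨_, rfl⟩
  have hB : 0 < B := by rw [hBd]; positivity
  let Q : ℕ → ℝ → ℝ → ℝ → Prop := fun i a b w => ∃ P : ℤ, 1 ≤ P ∧
    (a * nn (J + i)) ^ nn (J + i) = P ∧ (b * nn (J + i)) ^ nn (J + i) = P + 1 ∧
    (P + k).toNat.Prime ∧ u < a ∧ a < b ∧ b < v ∧ w ≤ B * (P : ℝ) ^ (-σ)
  refine Pool.Agent.Helper43.ML.t_DIM s (2 * B) hs hs1 (by positivity) Q a₀ b₀ 1 one_pos g2
    ⟨P₀, hP₀, p1, p2, p3, g1, g2, g3, ?_⟩ ?_ _ ?_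
  · rw [hBd, ← Real.rpow_add hP₀0]
    simp
  · rintro i a b w ⟨P, hP1, h1, h2, h3, h4, h5, h6, h7⟩ hw
    obtain ⟨M, l, r, g, hM, hg, hch, hgap, hkey⟩ := (hJ (J + i) (by omega)).2 (nn (J + (i + 1)))
      (nn_succ (J + i)) a b B w P h4 h5 h1 h2 hw hB h7
    refine ⟨M, l, r, g, hM, hg, fun d hd => ?_, hgap, hkey⟩
    obtain ⟨i1, i2, i3, P', i4, i5, i6, i7, i8⟩ := hch d hd
    exact ⟨i1, i2, i3, P', i4, i5, i6, i7, h4.trans i1, i2, i3.trans h6, i8⟩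
  · intro I hI hnest x hx
    have hux : u < x := by
      obtain ⟨P, -, -, -, -, h4, -, -, -⟩ := hI 0
      exact h4.trans_le (hx 0).1
    have hxv : x < v := by
      obtain ⟨P, -, -, -, -, -, -, h6, -⟩ := hI 0
      exact (hx 0).2.trans_lt h6
    refine ⟨⟨hux, hxv⟩, eventually_atTop.2 ⟨J, fun j hj => ?_⟩⟩
    obtain ⟨i, rfl⟩ := Nat.exists_eq_add_of_le hj
    obtain ⟨P, hP1, h1, h2, h3, h4, h5, h6, -⟩ := hI i
    have hlt : x < (I i).2.1 := (hx (i + 1)).2.trans_lt (hnest i).2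
    have hge : (I i).1 ≤ x := (hx i).1
    have hpos : 0 < (I i).1 := hu.trans h4
    have hn0 : (0 : ℝ) < nn (J + i) := by exact_mod_cast hn1 (J + i) (by omega)
    have w1 : (P : ℝ) ≤ (x * nn (J + i)) ^ nn (J + i) := by
      rw [← h1]
      exact pow_le_pow_left₀ (by positivity) (mul_le_mul_of_nonneg_right hge hn0.le) _
    have w2 : (x * nn (J + i)) ^ nn (J + i) < (P : ℝ) + 1 := by
      rw [← h2]
      have hx0 : 0 < x := hu.trans hux
      have hne : nn (J + i) ≠ 0 := by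
        have := hn1 (J + i) (by omega)
        omega
      exact pow_lt_pow_left₀ (mul_lt_mul_of_pos_right hlt hn0) (by positivity) hne
    rw [Int.floor_eq_iff.2 ⟨w1, w2⟩]
    exact h3

theorem dim_eq (k : ℤ) {u v : ℝ} (hu : 0 < u) (huv : u < v) : dimH (PS k u v) = 1 := by
  apply le_antisymm
  · exact (dimH_mono (Set.subset_univ _)).trans Real.dimH_univ.le
  · by_contra hcon
    push Not at hcon
    have hne : dimH (PS k u v) ≠ ⊤ := (hcon.trans ENNReal.one_lt_top).ne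
    obtain ⟨t, htd⟩ : ∃ t : ℝ, t = (dimH (PS k u v)).toReal := ⟨_, rfl⟩
    have ht0 : 0 ≤ t := by rw [htd]; exact ENNReal.toReal_nonneg
    have ht1 : t < 1 := by
      rw [htd]
      have := (ENNReal.toReal_lt_toReal hne ENNReal.one_ne_top).2 hcon
      rwa [ENNReal.toReal_one] at this
    have h := dim_ge k hu huv (s := (t + 1) / 2) (by linarith) (by linarith)
    rw [← ENNReal.ofReal_toReal hne, ← htd, ENNReal.ofReal_le_ofReal_iff ht0] at h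
    linarith

end Pool.Agent.Helper99.ML
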