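import Mathlib

set_option autoImplicit false

/-!
# A Cantor scheme with variable numbers of children: statement
-/

namespace Pool.Agent.Helper99.ML

open Filter Topology Finset

/-- **PIECE DIM**.  A tree of nested intervals `(a, b)` with weights `w`: every node `Q i a b w` of level `i` has `M ≥ 2`
children `(l d, r d)`, `d < M`, of level `i + 1` with weight `w / M`, in increasing order, with gaps at least `(d' - d) g`,
and `2 w ≤ A (M g) ^ s`.  Then the set `E` of the limits of the branches has dimension at least `s`.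

Proof.  For `y ∈ [0, 1)` choose the child `d = ⌊M y⌋₊` and go on with `M y - d`; this gives a branch, and a point `α y` of `E`
(supremum of the left end points, `Monotone.ciSup_mem_iInter_Icc_of_antitone`). If `y ≠ z`, let `i` be the first level at
which the digits differ (it exists: otherwise `y - z = (w i / w 0) (y i - z i)` and `w i → 0`). With `D = |d - d'| ≥ 1` one has
`|y - z| = (w i / w 0) |y i - z i| ≤ (w i / w 0) (D + 1) / M ≤ (w i / w 0) 2 D / M` and `|α y - α z| ≥ D g`, so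
`|y - z| ≤ (A / w 0) |α y - α z| ^ s`, as `2 w D / M ≤ A (D g) ^ s` (`D ≤ M`, `s < 1`). So `y` is a Hölder function of
`α y` (`HolderOnWith.dimH_image_le`), and `dimH [0, 1) = 1` (compare `dim_ge` in `Pool/Agent/H509R3/CFDim.lean`). -/
def S_DIM : Prop := ∀ (s A : ℝ), 0 < s → s < 1 → 0 < A →
  ∀ (Q : ℕ → ℝ → ℝ → ℝ → Prop) (a₀ b₀ w₀ : ℝ), 0 < w₀ → a₀ < b₀ → Q 0 a₀ b₀ w₀ →
  (∀ i a b w, Q i a b w → 0 < w → ∃ (M : ℕ) (l r : ℕ → ℝ) (g : ℝ), 2 ≤ M ∧ 0 < g ∧
    (∀ d < M, a < l d ∧ l d < r d ∧ r d < b ∧ Q (i + 1) (l d) (r d) (w / M)) ∧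
    (∀ d d', d < d' → d' < M → ((d' : ℝ) - d) * g ≤ l d' - r d) ∧ 2 * w ≤ A * (M * g) ^ s) →
  ∀ E : Set ℝ, (∀ I : ℕ → ℝ × ℝ × ℝ, (∀ i, Q i (I i).1 (I i).2.1 (I i).2.2) →
    (∀ i, (I i).1 < (I (i + 1)).1 ∧ (I (i + 1)).2.1 < (I i).2.1) →
    ∀ x, (∀ i, (I i).1 ≤ x ∧ x ≤ (I i).2.1) → x ∈ E) → ENNReal.ofReal s ≤ dimH E

end Pool.Agent.Helper99.ML
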